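import Pool.Agent.Work.MP_3e1eec_co.Main

/-!
# Minimal path-saturated graphs for `k ≥ 9` and `n ≥ c k`
-/

open SimpleGraph

namespace Pool.Agent.Results.MP_3e1eec_co.AboveC

open PS

theorem result (k n : ℕ) (hk : 9 ≤ k) (hn : c k ≤ n) :
    (∃ H : SimpleGraph (Fin n), MinSat k H) ∧ ∀ G : SimpleGraph (Fin n), MinSat k G ↔
      (G.edgeSet.ncard = (if n < b k then n + 1 else n - n / a k) ∧
        (∀ (v : Fin n) (p : G.Walk v v), p.IsCycle → p.length = 3) ∧
        (∀ v, lp G ∅ v < k ∧ ∃ u, G.Reachable v u ∧ lp G ∅ u = k - 1) ∧ Rule k G) := by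
  have e : Nat.card (Fin n) = n := Nat.card_eq_fintype_card.trans (Fintype.card_fin n)
  have h := main (V := Fin n) hk (by rw [e]; exact hn)
  rw [e] at h
  exact h

end Pool.Agent.Results.MP_3e1eec_co.AboveC
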