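import Pool.Agent.Work.MP_3e1eec_co.O.Fin

/-!
# The order of `sat(n, P_k) - n` for `2 k ≤ n < b k`
-/

namespace Pool.Agent.Results.MP_3e1eec_co.Order

open PS

theorem result : ∃ c C : ℝ, 0 < c ∧ 0 < C ∧ ∀ k n : ℕ, 5 ≤ k → 2 * k ≤ n → n < b k →
    c * (k / Real.log (n / k)) ≤ (satN n k : ℝ) - n ∧
      (satN n k : ℝ) - n ≤ C * (k / Real.log (n / k)) :=
  order

end Pool.Agent.Results.MP_3e1eec_co.Order
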