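import Pool.Agent.Work.MP_3e1eec_co.T3.Up

/-!
# The saturation number of the path is `n + 3` for `2 ^ (k / 3 + 3) ≤ n < 2 ^ (k / 2 - 11)`
-/

namespace Pool.Agent.Results.MP_3e1eec_co.Three

open PS

theorem result (k n : ℕ) (h1 : 2 ^ (k / 3 + 3) ≤ n) (h2 : n < 2 ^ (k / 2 - 11)) :
    satN n k = n + 3 :=
  three k n h1 h2

end Pool.Agent.Results.MP_3e1eec_co.Three
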